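import Pool.Agent.Q27.Graphical.Third
import Pool.Agent.Q27.Graphical.Pole

/-!
# A class counting zeta function of a graphical group with a pole at `43/3`

For a finite simple graph `Γ` and a commutative ring `R` let `GG Γ R` be the graphical group: the
set `R^V × R^E` with `(x, z) (x', z') = (x + x', z + z' + β(x, x'))`, `β(x, x')_e = x_u x'_v` for
`e = {u, v}`, `u < v` (defined in `Pool/Agent/Q27/Graphical/Group.lean`, with the number
`classNumber` of conjugacy classes of a group). We show that there is a graph with 10 vertices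
such that for every discrete valuation ring with finite residue field (in particular for every
compact one) the meromorphic continuation of the class counting zeta function has a pole at
`43/3`, which is not in `½ℤ`.
-/

set_option autoImplicit false

open IsLocalRing Q27.Graphical

universe u

namespace Pool.Agent.Results.MP_3df142_al.PoleThird

/-- The summand `k(G_Γ(𝔒/𝔓^k)) q^{-ks}` of the class counting zeta function of `Γ` over the
discrete valuation ring `𝔒`, where `q = |𝔒/𝔓|`. -/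
noncomputable def term {V : Type*} [LinearOrder V] (Γ : SimpleGraph V) (O : Type*) [CommRing O]
    [IsDomain O] [IsDiscreteValuationRing O] (s : ℂ) (k : ℕ) : ℂ :=
  (classNumber (GG Γ (O ⧸ maximalIdeal O ^ k)) : ℂ) *
    (Nat.card (O ⧸ maximalIdeal O) : ℂ) ^ (-((k : ℂ) * s))

/-- `F` is a meromorphic function on the complex plane which agrees with the class counting zeta
function `∑_k k(G_Γ(𝔒/𝔓^k)) q^{-ks}` on some right half-plane. -/
def IsContinuation {V : Type*} [LinearOrder V] (Γ : SimpleGraph V) (O : Type*) [CommRing O]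
    [IsDomain O] [IsDiscreteValuationRing O] (F : ℂ → ℂ) : Prop :=
  (∀ z, MeromorphicAt F z) ∧ ∃ σ : ℝ, ∀ s : ℂ, σ < s.re → HasSum (term Γ O s) (F s)

section

variable (O : Type*) [CommRing O] [IsDomain O] [IsDiscreteValuationRing O]
  [Finite (O ⧸ maximalIdeal O)]

/-- The real coefficients. -/
noncomputable def co (k : ℕ) : ℝ := (classNumber (GG gr (O ⧸ maximalIdeal O ^ k)) : ℝ)

theorem exists_chain (k : ℕ) : ∃ ϖ : O ⧸ maximalIdeal O ^ k,
    IsChain (O ⧸ maximalIdeal O ^ k) ϖ (Nat.card (O ⧸ maximalIdeal O)) k := by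
  obtain ⟨ϖ, hϖ⟩ := IsDiscreteValuationRing.exists_irreducible O
  exact ⟨_, isChain_dvr O k hϖ⟩

theorem co_eq (k : ℕ) : co O k =
    numGood gr (O ⧸ maximalIdeal O ^ k) * (Nat.card (O ⧸ maximalIdeal O) : ℝ) ^ (3 * k) := by
  obtain ⟨ϖ, h⟩ := exists_chain O k
  have := h.finite
  have h1 := classNumber_mul (Γ := gr) (R := O ⧸ maximalIdeal O ^ k)
  rw [card_gr, h.card_univ, Fintype.card_fin] at h1
  have hq : 0 < Nat.card (O ⧸ maximalIdeal O) := by have := h.two_le; omega
  have h2 : classNumber (GG gr (O ⧸ maximalIdeal O ^ k)) =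
      numGood gr (O ⧸ maximalIdeal O ^ k) * Nat.card (O ⧸ maximalIdeal O) ^ (3 * k) := by
    apply Nat.eq_of_mul_eq_mul_right
      (show 0 < (Nat.card (O ⧸ maximalIdeal O) ^ k) ^ 10 by positivity)
    rw [h1, mul_assoc]
    congr 1
    rw [← pow_mul, ← pow_mul, ← pow_add]
    congr 1
    ring
  unfold co
  rw [h2]
  push_cast
  rfl

omit [Finite (O ⧸ maximalIdeal O)] in
theorem co_nonneg (k : ℕ) : 0 ≤ co O k := by unfold co; positivity

theorem summable_co (σ : ℝ) (hσ : 43 / 3 < σ) :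
    Summable (fun k : ℕ => co O k * (Nat.card (O ⧸ maximalIdeal O) : ℝ) ^ (-((k : ℝ) * σ))) := by
  obtain ⟨_, h0⟩ := exists_chain O 0
  have hq2 : 2 ≤ Nat.card (O ⧸ maximalIdeal O) := h0.two_le
  set q := Nat.card (O ⧸ maximalIdeal O) with hq
  have hq0 : (0 : ℝ) < q := by exact_mod_cast (by omega : 0 < q)
  have hq1 : (1 : ℝ) < q := by exact_mod_cast (by omega : 1 < q)
  set r : ℝ := (q : ℝ) ^ (43 / 3 - σ) with hr
  have hr0 : 0 < r := by positivity
  have hr1 : r < 1 := Real.rpow_lt_one_of_one_lt_of_neg hq1 (by linarith)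
  have h1 : Summable (fun k : ℕ => ((k : ℝ) + 1) ^ 10 * r ^ k) := by
    have h2 := summable_pow_mul_geometric_of_norm_lt_one (R := ℝ) 10 (r := r)
      (by rw [Real.norm_of_nonneg hr0.le]; exact hr1)
    have h3 := ((summable_nat_add_iff 1).2 h2).mul_left r⁻¹
    refine h3.congr (fun k => ?_)
    push_cast
    field_simp
    ring
  refine Summable.of_nonneg_of_le (fun k => mul_nonneg (co_nonneg O k) (by positivity))
    (fun k => ?_) h1
  obtain ⟨_, h⟩ := exists_chain O k
  have h4 := h.numGood_gr_le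
  rw [co_eq, ← hq]
  calc numGood gr (O ⧸ maximalIdeal O ^ k) * (q : ℝ) ^ (3 * k) * (q : ℝ) ^ (-((k : ℝ) * σ))
      ≤ (k + 1) ^ 10 * (q : ℝ) ^ ((34 / 3 : ℝ) * k) * (q : ℝ) ^ (3 * k) *
          (q : ℝ) ^ (-((k : ℝ) * σ)) := by gcongr
    _ = (k + 1) ^ 10 * ((q : ℝ) ^ ((34 / 3 : ℝ) * k) * (q : ℝ) ^ ((3 * k : ℕ) : ℝ) *
          (q : ℝ) ^ (-((k : ℝ) * σ))) := by rw [Real.rpow_natCast]; ring
    _ = (k + 1) ^ 10 * r ^ k := by
        rw [← Real.rpow_add hq0, ← Real.rpow_add hq0, hr, ← Real.rpow_natCast _ k,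
          ← Real.rpow_mul hq0.le]
        congr 2
        push_cast
        ring

theorem le_co (j : ℕ) (hj : 1 ≤ j) :
    ((Nat.card (O ⧸ maximalIdeal O) : ℝ) ^ 2)⁻¹ ≤ co O (3 * j) *
      (Nat.card (O ⧸ maximalIdeal O) : ℝ) ^ (-(((3 * j : ℕ) : ℝ) * (43 / 3))) := by
  obtain ⟨_, h⟩ := exists_chain O (3 * j)
  have hq2 : 2 ≤ Nat.card (O ⧸ maximalIdeal O) := h.two_le
  have h1 := h.le_numGood_gr hj
  set q := Nat.card (O ⧸ maximalIdeal O) with hq
  have hq0 : (0 : ℝ) < q := by exact_mod_cast (by omega : 0 < q)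
  rw [co_eq, ← hq]
  have h2 : (q : ℝ) ^ (34 * j) ≤ (q : ℝ) ^ 2 * numGood gr (O ⧸ maximalIdeal O ^ (3 * j)) := by
    exact_mod_cast h1
  have h3 : (q : ℝ) ^ (-(((3 * j : ℕ) : ℝ) * (43 / 3))) = ((q : ℝ) ^ (43 * j))⁻¹ := by
    rw [Real.rpow_neg hq0.le, ← Real.rpow_natCast]
    congr 2
    push_cast
    ring
  rw [h3]
  rw [inv_le_iff_one_le_mul₀ (by positivity)]
  calc (1 : ℝ) = (q : ℝ) ^ (34 * j) * (q : ℝ) ^ (3 * (3 * j)) * ((q : ℝ) ^ (43 * j))⁻¹ := by
        rw [← pow_add]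
        have : 34 * j + 3 * (3 * j) = 43 * j := by ring
        rw [this]
        field_simp
    _ ≤ ((q : ℝ) ^ 2 * numGood gr (O ⧸ maximalIdeal O ^ (3 * j))) * (q : ℝ) ^ (3 * (3 * j)) *
          ((q : ℝ) ^ (43 * j))⁻¹ := by gcongr
    _ = _ := by ring

theorem div_co (M : ℝ) : ∃ J : Finset ℕ,
    M < ∑ k ∈ J, co O k * (Nat.card (O ⧸ maximalIdeal O) : ℝ) ^ (-((k : ℝ) * (43 / 3))) := by
  obtain ⟨_, h0⟩ := exists_chain O 0
  have hq2 : 2 ≤ Nat.card (O ⧸ maximalIdeal O) := h0.two_le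
  set q := Nat.card (O ⧸ maximalIdeal O) with hq
  have hq0 : (0 : ℝ) < q := by exact_mod_cast (by omega : 0 < q)
  obtain ⟨n, hn⟩ := exists_nat_gt (M * (q : ℝ) ^ 2)
  refine ⟨(Finset.Icc 1 n).image (fun j => 3 * j), ?_⟩
  rw [Finset.sum_image (by intro a _ b _ hab; simpa using hab)]
  calc M < n * ((q : ℝ) ^ 2)⁻¹ := by
        rw [← div_eq_mul_inv, lt_div_iff₀ (by positivity)]
        exact hn
    _ = ∑ _j ∈ Finset.Icc 1 n, ((q : ℝ) ^ 2)⁻¹ := by
        rw [Finset.sum_const, Nat.card_Icc, nsmul_eq_mul]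
        simp
    _ ≤ _ := by
        refine Finset.sum_le_sum (fun j hj => ?_)
        exact le_co O j (Finset.mem_Icc.1 hj).1

end

/-- There is a finite simple graph `Γ` with 10 vertices and 13 edges such that for every discrete
valuation ring `𝔒` with finite residue field: (1) the series `∑_k k(G_Γ(𝔒/𝔓^k)) q^{-ks}`
converges for `Re s > 43/3`; (2) every meromorphic function on `ℂ` which agrees with this series
on some right half-plane has a pole at `s = 43/3`. The number `43/3` is not in `½ℤ`. -/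
theorem result :
    ∃ Γ : SimpleGraph (Fin 10), Nat.card Γ.edgeSet = 13 ∧
      (∀ (O : Type u) [CommRing O] [IsDomain O] [IsDiscreteValuationRing O]
        [Finite (O ⧸ maximalIdeal O)],
        (∀ s : ℂ, 43 / 3 < s.re → Summable (term Γ O s)) ∧
        ∀ F : ℂ → ℂ, IsContinuation Γ O F →
          ∃ s₀ : ℂ, s₀.re = 43 / 3 ∧ meromorphicOrderAt F s₀ < 0) ∧
      ∀ z : ℤ, (43 / 3 : ℝ) ≠ z / 2 := by
  refine ⟨gr, card_gr, ?_, ?_⟩
  · intro O _ _ _ _
    obtain ⟨_, h0⟩ := exists_chain O 0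
    have hq2 : 2 ≤ Nat.card (O ⧸ maximalIdeal O) := h0.two_le
    have hterm : ∀ s, term gr O s = tm (co O) (Nat.card (O ⧸ maximalIdeal O)) s := by
      intro s
      funext k
      unfold term tm co
      push_cast
      rfl
    refine ⟨fun s hs => ?_, fun F hF => ?_⟩
    · rw [hterm, ← summable_norm_iff]
      refine (summable_co O s.re hs).congr (fun k => ?_)
      rw [norm_tm (co_nonneg O) (by omega)]
    · obtain ⟨hF1, σ, hF2⟩ := hF
      refine ⟨((43 / 3 : ℝ) : ℂ), Complex.ofReal_re _, ?_⟩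
      refine pole_of_diverges (co_nonneg O) hq2 (summable_co O) (div_co O) hF1 (σ₁ := σ) ?_
      intro s hs
      rw [← hterm]
      exact (hF2 s hs).tsum_eq.symm
  · intro z hz
    have h1 : (86 : ℝ) = 3 * z := by linarith
    have h2 : (86 : ℤ) = 3 * z := by exact_mod_cast h1
    omega

end Pool.Agent.Results.MP_3df142_al.PoleThird
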